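import Pool.Agent.H97.PK.Targets

/-!
# BLK: from radii of ratio at most `d + 1` to arbitrary radii
-/

open MeasureTheory Set Metric Real
open scoped ENNReal

set_option autoImplicit false

namespace Pool.Agent.H22.PK.BLK

open Pool.Agent.H97.PK

/-- The kernel of an absorption relation. -/
theorem kernel {ι : Type} [DecidableEq ι] (ρ : ι → ℝ) (ab : ι → ι → Prop)
    (hab : ∀ l i, ab l i → ρ i < ρ l) (n : ℕ) :
    ∀ T : Finset ι, T.card = n → ∃ S ⊆ T, (∀ l ∈ S, ∀ i ∈ S, ¬ ab l i) ∧
      ∀ i ∈ T, i ∉ S → ∃ l ∈ S, ab l i := by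
  classical
  induction n with
  | zero =>
    intro T hT
    rw [Finset.card_eq_zero] at hT
    subst hT
    exact ⟨∅, by simp, by simp, by simp⟩
  | succ n ih =>
    intro T hT
    have hne : T.Nonempty := by
      rw [← Finset.card_pos]
      omega
    obtain ⟨i₀, hi₀, hmin⟩ := T.exists_min_image ρ hne
    obtain ⟨S₀, hS₀, h1, h2⟩ := ih (T.erase i₀) (by rw [Finset.card_erase_of_mem hi₀]; omega)
    have hST : S₀ ⊆ T := hS₀.trans (Finset.erase_subset _ _)
    by_cases hl : ∃ l ∈ S₀, ab l i₀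
    · refine ⟨S₀, hST, h1, ?_⟩
      intro i hi hiS
      by_cases hii : i = i₀
      · rw [hii]
        exact hl
      · exact h2 i (Finset.mem_erase.2 ⟨hii, hi⟩) hiS
    · refine ⟨insert i₀ S₀, ?_, ?_, ?_⟩
      · intro i hi
        rcases Finset.mem_insert.1 hi with h | h
        · rw [h]
          exact hi₀
        · exact hST h
      · intro l hl' i hi hh
        have hlt := hab l i hh
        rcases Finset.mem_insert.1 hl' with h | h
        · rw [h] at hlt
          rcases Finset.mem_insert.1 hi with h' | h'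
          · rw [h'] at hlt
            exact lt_irrefl _ hlt
          · exact absurd (hmin i (hST h')) (not_le.2 hlt)
        · rcases Finset.mem_insert.1 hi with h' | h'
          · rw [h'] at hh
            exact hl ⟨l, h, hh⟩
          · exact h1 l h i h' hh
      · intro i hi hiS
        rw [Finset.mem_insert] at hiS
        push Not at hiS
        obtain ⟨l, hlS, hl'⟩ := h2 i (Finset.mem_erase.2 ⟨hiS.1, hi⟩) hiS.2
        exact ⟨l, Finset.mem_insert_of_mem hlS, hl'⟩

theorem pow_le_exp (d : ℕ) (hd : 1 ≤ d) : (1 + 2 / (d : ℝ)) ^ d ≤ exp 2 := by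
  have hd0 : (0 : ℝ) < d := by exact_mod_cast hd
  calc (1 + 2 / (d : ℝ)) ^ d ≤ exp (2 / (d : ℝ)) ^ d := by
        refine pow_le_pow_left₀ (by positivity) ?_ d
        have := Real.add_one_le_exp (2 / (d : ℝ))
        linarith
    _ = exp 2 := by
        rw [← Real.exp_nat_mul]
        congr 1
        field_simp

theorem pf_blk (hGRO : T_GRO) : T_BLK := by
  classical
  intro d hd C hyp ι _ p q ρ hinj hcon hρ
  have hd0 : (0 : ℝ) < d := by exact_mod_cast hd
  have hd1 : (1 : ℝ) ≤ d := by exact_mod_cast hd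
  set ab : ι → ι → Prop := fun l i => ((d : ℝ) + 1) * ρ i ≤ ρ l ∧
    dist (p i) (p l) ≤ (1 + 1 / (d : ℝ)) * ρ l with hab
  have hablt : ∀ l i, ab l i → ρ i < ρ l := by
    rintro l i ⟨h1, -⟩
    nlinarith [hρ i]
  obtain ⟨S, -, hS1, hS2⟩ := kernel ρ ab hablt _ (Finset.univ : Finset ι) rfl
  -- blocks
  set b : ι → ℤ := fun i => Int.log (d + 1) (ρ i) with hb
  have hd2 : 1 < d + 1 := by omega
  have hb1 : ∀ i, ((d + 1 : ℕ) : ℝ) ^ b i ≤ ρ i := fun i => Int.zpow_log_le_self hd2 (hρ i)
  have hb2 : ∀ i, ρ i < ((d + 1 : ℕ) : ℝ) ^ (b i + 1) := fun i => Int.lt_zpow_succ_log_self hd2 (ρ i)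
  have hβ : ((d + 1 : ℕ) : ℝ) = (d : ℝ) + 1 := by push_cast; ring
  have hβ0 : (0 : ℝ) < (d : ℝ) + 1 := by linarith
  have hβ1 : (1 : ℝ) ≤ (d : ℝ) + 1 := by linarith
  rw [hβ] at hb1 hb2
  have hsame : ∀ i j, b i = b j → ρ i ≤ ((d : ℝ) + 1) * ρ j := by
    intro i j hij
    have h1 := hb2 i
    have h2 := hb1 j
    rw [hij, zpow_add_one₀ hβ0.ne'] at h1
    nlinarith
  have hfar : ∀ l i, b i + 2 ≤ b l → ((d : ℝ) + 1) * ρ i ≤ ρ l := by
    intro l i hli
    have h1 := hb2 i
    have h2 := hb1 l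
    have h3 : ((d : ℝ) + 1) ^ (b i + 2) ≤ ((d : ℝ) + 1) ^ b l := zpow_le_zpow_right₀ hβ1 hli
    have h4 : ((d : ℝ) + 1) ^ (b i + 2) = ((d : ℝ) + 1) ^ (b i + 1) * ((d : ℝ) + 1) := by
      rw [← zpow_add_one₀ hβ0.ne']
      congr 1
      ring
    rw [h4] at h3
    nlinarith
  -- (1)
  have step1 : vU q ρ ≤ ENNReal.ofReal (exp 2) *
      vU (fun i : {i // i ∈ S} => q i) (fun i : {i // i ∈ S} => ρ i) := by
    have h1 : vU q ρ ≤ vU (fun i : {i // i ∈ S} => q i)
        (fun i : {i // i ∈ S} => (1 + 2 / (d : ℝ)) * ρ i) := by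
      refine measure_mono (iUnion_subset fun i => ?_)
      by_cases hi : i ∈ S
      · refine subset_iUnion_of_subset ⟨i, hi⟩ (closedBall_subset_closedBall ?_)
        have : (0 : ℝ) < 2 / d := by positivity
        nlinarith [hρ i]
      · obtain ⟨l, hl, h2, h3⟩ := hS2 i (Finset.mem_univ i) hi
        refine subset_iUnion_of_subset ⟨l, hl⟩ (closedBall_subset_closedBall' ?_)
        have h4 := hcon i l
        have h5 : ρ i ≤ 1 / d * ρ l := by
          rw [one_div, ← div_eq_inv_mul, le_div_iff₀ hd0]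
          nlinarith [hρ i]
        have h6 : (1 + 2 / (d : ℝ)) * ρ l = (1 + 1 / (d : ℝ)) * ρ l + 1 / d * ρ l := by ring
        simp only
        linarith
    refine h1.trans ((hGRO d hd {i // i ∈ S} (fun i => q i) (fun i => ρ i) (1 + 2 / (d : ℝ)) ?_).trans
      (mul_le_mul' (ENNReal.ofReal_le_ofReal (pow_le_exp d hd)) le_rfl))
    have : (0 : ℝ) < 2 / d := by positivity
    linarith
  -- (2)
  set F : ℤ → Finset ι := fun t => S.filter fun i => b i = t with hF
  set A : ℤ → Set (E d) := fun t => ⋃ i : {i // i ∈ F t}, closedBall (p i) (ρ i) with hA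
  have step2 : vU (fun i : {i // i ∈ S} => q i) (fun i : {i // i ∈ S} => ρ i) ≤
      ∑ t ∈ S.image b, C * volume (A t) := by
    calc vU (fun i : {i // i ∈ S} => q i) (fun i : {i // i ∈ S} => ρ i)
        ≤ volume (⋃ t ∈ S.image b, ⋃ i : {i // i ∈ F t}, closedBall (q i) (ρ i)) := by
          refine measure_mono (iUnion_subset fun i => ?_)
          refine subset_iUnion₂_of_subset (b i.1) (Finset.mem_image_of_mem b i.2) ?_
          exact subset_iUnion_of_subset (⟨i.1, by simp [hF, i.2]⟩ : {j // j ∈ F (b i.1)}) subset_rfl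
      _ ≤ ∑ t ∈ S.image b, volume (⋃ i : {i // i ∈ F t}, closedBall (q i) (ρ i)) :=
          measure_biUnion_finset_le _ _
      _ ≤ ∑ t ∈ S.image b, C * volume (A t) := by
          refine Finset.sum_le_sum fun t _ => ?_
          refine hyp {i // i ∈ F t} (fun i => p i) (fun i => q i) (fun i => ρ i) ?_ ?_ ?_ ?_
          · intro i j hij
            exact Subtype.ext (hinj hij)
          · intro i j
            exact hcon i j
          · intro i
            exact hρ i
          · intro i j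
            refine hsame i j ?_
            have h1 := (Finset.mem_filter.1 i.2).2
            have h2 := (Finset.mem_filter.1 j.2).2
            rw [h1, h2]
  -- (3)
  have hdisj : ∀ t t' : ℤ, t' + 2 ≤ t → Disjoint (A t) (A t') := by
    intro t t' htt
    rw [Set.disjoint_iUnion_left]
    intro l
    rw [Set.disjoint_iUnion_right]
    intro i
    have hl := Finset.mem_filter.1 l.2
    have hi := Finset.mem_filter.1 i.2
    have h1 : ((d : ℝ) + 1) * ρ i ≤ ρ l := hfar l i (by rw [hl.2, hi.2]; exact htt)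
    have h2 : ¬ ab l i := hS1 l hl.1 i hi.1
    have h3 : (1 + 1 / (d : ℝ)) * ρ l < dist (p i) (p l) := by
      by_contra hc
      exact h2 ⟨h1, not_lt.1 hc⟩
    apply closedBall_disjoint_closedBall
    have h5 : ρ i ≤ 1 / d * ρ l := by
      rw [one_div, ← div_eq_inv_mul, le_div_iff₀ hd0]
      nlinarith [hρ i]
    rw [dist_comm]
    linarith
  have hmeas : ∀ t, MeasurableSet (A t) := fun t =>
    (isClosed_iUnion_of_finite fun i => isClosed_closedBall).measurableSet
  have hpar : ∀ (P : ℤ → Prop) [DecidablePred P], (∀ t t', P t → P t' → t ≠ t' → t' + 2 ≤ t ∨ t + 2 ≤ t') →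
      ∑ t ∈ (S.image b).filter P, volume (A t) ≤ vU p ρ := by
    intro P _ hP
    rw [← measure_biUnion_finset]
    · refine measure_mono (iUnion₂_subset fun t _ => iUnion_subset fun i => ?_)
      exact subset_iUnion_of_subset i.1 subset_rfl
    · intro t ht t' ht' hne
      have h1 := (Finset.mem_filter.1 ht).2
      have h2 := (Finset.mem_filter.1 ht').2
      rcases hP t t' h1 h2 hne with h | h
      · exact hdisj t t' h
      · exact (hdisj t' t h).symm
    · intro t _
      exact hmeas t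
  have step3 : ∑ t ∈ S.image b, volume (A t) ≤ 2 * vU p ρ := by
    rw [← Finset.sum_filter_add_sum_filter_not (S.image b) (fun t => Even t), two_mul]
    refine add_le_add (hpar _ ?_) (hpar _ ?_)
    · rintro t t' ⟨a, ha⟩ ⟨c, hc⟩ hne
      omega
    · intro t t' ht ht' hne
      rw [Int.not_even_iff_odd] at ht ht'
      obtain ⟨a, ha⟩ := ht
      obtain ⟨c, hc⟩ := ht'
      omega
  calc vU q ρ ≤ ENNReal.ofReal (exp 2) *
        vU (fun i : {i // i ∈ S} => q i) (fun i : {i // i ∈ S} => ρ i) := step1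
    _ ≤ ENNReal.ofReal (exp 2) * (C * (2 * vU p ρ)) := by
        refine mul_le_mul' le_rfl (step2.trans ?_)
        rw [← Finset.mul_sum]
        exact mul_le_mul' le_rfl step3
    _ = ENNReal.ofReal (2 * exp 2) * C * vU p ρ := by
        rw [ENNReal.ofReal_mul (by norm_num)]
        simp only [ENNReal.ofReal_ofNat]
        ring

end Pool.Agent.H22.PK.BLK
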