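import Pool.Agent.H97.PK.Targets

/-!
# INT: the intersection inequality
-/

open MeasureTheory Set Metric Real Filter Topology
open scoped ENNReal

set_option autoImplicit false

namespace Pool.Agent.H22.PK.INT

open Pool.Agent.H97.PK

/-- The set `{|y - p_i|^2 - a_i ≤ t for all i}`. -/
def slab {d : ℕ} {ι : Type} (p : ι → E d) (a : ι → ℝ) (t : ℝ) : Set (E d) :=
  {y : E d | ∀ i, ‖y - p i‖ ^ 2 - a i ≤ t}

theorem slab_mono {d : ℕ} {ι : Type} (p : ι → E d) (a : ι → ℝ) {s t : ℝ} (h : s ≤ t) :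
    slab p a s ⊆ slab p a t := fun _ hy i => (hy i).trans h

theorem slab_closed {d : ℕ} {ι : Type} (p : ι → E d) (a : ι → ℝ) (t : ℝ) :
    IsClosed (slab p a t) := by
  have : slab p a t = ⋂ i, {y : E d | ‖y - p i‖ ^ 2 - a i ≤ t} := by
    ext y
    simp [slab]
  rw [this]
  exact isClosed_iInter fun i => isClosed_le (by fun_prop) continuous_const

theorem slab_subset {d : ℕ} {ι : Type} (p : ι → E d) (a : ι → ℝ) (t : ℝ) (i : ι) :
    slab p a t ⊆ closedBall (p i) (√(t + a i)) := by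
  intro y hy
  rw [mem_closedBall, dist_eq_norm]
  have h1 : ‖y - p i‖ ^ 2 ≤ t + a i := by
    have := hy i
    linarith
  exact Real.le_sqrt_of_sq_le h1

theorem slab_lt_top {d : ℕ} {ι : Type} [Nonempty ι] (p : ι → E d) (a : ι → ℝ) (t : ℝ) :
    volume (slab p a t) < ∞ := by
  obtain ⟨i⟩ := ‹Nonempty ι›
  exact (measure_mono (slab_subset p a t i)).trans_lt measure_closedBall_lt_top

theorem vI_eq {d : ℕ} {ι : Type} (p : ι → E d) (ρ : ι → ℝ) (hρ : ∀ i, 0 < ρ i) :
    vI p ρ = volume (slab p (fun i => ρ i ^ 2) 0) := by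
  unfold vI
  congr 1
  ext y
  simp only [slab, mem_iInter, mem_closedBall, dist_eq_norm, mem_ofPred_eq, sub_nonpos]
  refine forall_congr' fun i => ?_
  constructor
  · intro h
    exact pow_le_pow_left₀ (norm_nonneg _) h 2
  · intro h
    exact le_of_sq_le_sq h (hρ i).le

/-- The inequality between the slices. -/
theorem slices (hKPI : T_KPI) (hRNK : T_RNK) (hISL : T_ISL) {d : ℕ} (hd : 3 ≤ d) {ι : Type}
    [Fintype ι] [Nonempty ι] (p q : ι → E d) (hc : Contr p q) (a : ι → ℝ) (τ : ℝ)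
    (hτ : ∀ i, 0 ≤ a i + τ) :
    ∫⁻ z : E (d - 2), volume (slab p a (τ - ‖z‖ ^ 2)) ≤
      ∫⁻ z : E (d - 2), volume (slab q a (τ - ‖z‖ ^ 2)) := by
  have h1 := hISL d (d - 2) ι p a τ hτ
  have h2 := hISL d (d - 2) ι q a τ hτ
  obtain ⟨h3, h4⟩ := hRNK d (d - 2) ι p q
  have h5 := hKPI (d + (d - 2)) (by omega) ι (fun i => emb (d - 2) (p i))
    (fun i => emb (d - 2) (q i)) (h4 hc) (by omega) (fun i => √(a i + τ))
  rw [h1, h2] at h5
  exact h5

theorem lower {d m : ℕ} {ι : Type} (p : ι → E d) (a : ι → ℝ) (τ : ℝ) (hτ : 0 ≤ τ) :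
    volume (slab p a 0) * volume (closedBall (0 : E m) (√τ)) ≤
      ∫⁻ z : E m, volume (slab p a (τ - ‖z‖ ^ 2)) := by
  calc volume (slab p a 0) * volume (closedBall (0 : E m) (√τ))
      = ∫⁻ _z in closedBall (0 : E m) (√τ), volume (slab p a 0) := by
        rw [setLIntegral_const]
    _ ≤ ∫⁻ z in closedBall (0 : E m) (√τ), volume (slab p a (τ - ‖z‖ ^ 2)) := by
        refine setLIntegral_mono' measurableSet_closedBall fun z hz => ?_
        refine measure_mono (slab_mono p a ?_)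
        rw [mem_closedBall, dist_zero_right] at hz
        have : ‖z‖ ^ 2 ≤ √τ ^ 2 := pow_le_pow_left₀ (norm_nonneg _) hz 2
        rw [Real.sq_sqrt hτ] at this
        linarith
    _ ≤ _ := setLIntegral_le_lintegral _ _

/-- A slab of measure zero. -/
theorem null_case {d m : ℕ} {ι : Type} [Nonempty ι] (p q : ι → E d) (a : ι → ℝ)
    (hineq : ∀ τ : ℝ, 0 < τ → ∫⁻ z : E m, volume (slab p a (τ - ‖z‖ ^ 2)) ≤
      ∫⁻ z : E m, volume (slab q a (τ - ‖z‖ ^ 2)))
    (h0 : volume (slab q a 0) = 0) : volume (slab p a 0) = 0 := by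
  have h1 : ∀ τ : ℝ, 0 < τ → volume (slab p a 0) ≤ volume (slab q a τ) := by
    intro τ hτ
    have h2 := (lower p a τ hτ.le (m := m)).trans (hineq τ hτ)
    have h3 : ∫⁻ z : E m, volume (slab q a (τ - ‖z‖ ^ 2)) ≤
        volume (slab q a τ) * volume (closedBall (0 : E m) (√τ)) := by
      calc ∫⁻ z : E m, volume (slab q a (τ - ‖z‖ ^ 2))
          ≤ ∫⁻ z : E m, (closedBall (0 : E m) (√τ)).indicator (fun _ => volume (slab q a τ)) z := by
            refine lintegral_mono fun z => ?_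
            by_cases hz : z ∈ closedBall (0 : E m) (√τ)
            · rw [indicator_of_mem hz]
              refine measure_mono (slab_mono q a ?_)
              have := sq_nonneg ‖z‖
              linarith
            · rw [indicator_of_notMem hz]
              refine le_of_eq (measure_mono_null (slab_mono q a (t := 0) ?_) h0)
              rw [mem_closedBall, dist_zero_right, not_le] at hz
              have : √τ ^ 2 ≤ ‖z‖ ^ 2 := pow_le_pow_left₀ (Real.sqrt_nonneg _) hz.le 2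
              rw [Real.sq_sqrt hτ.le] at this
              linarith
        _ = _ := by
            rw [lintegral_indicator measurableSet_closedBall, setLIntegral_const]
    have h4 := h2.trans h3
    have h5 : volume (closedBall (0 : E m) (√τ)) ≠ 0 :=
      (measure_closedBall_pos volume _ (Real.sqrt_pos.2 hτ)).ne'
    have h6 : volume (closedBall (0 : E m) (√τ)) ≠ ∞ := measure_closedBall_lt_top.ne
    exact (ENNReal.mul_le_mul_iff_left h5 h6).1 h4
  have h2 : Tendsto (fun n : ℕ => volume (slab q a (1 / ((n : ℝ) + 1)))) atTop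
      (𝓝 (volume (⋂ n : ℕ, slab q a (1 / ((n : ℝ) + 1))))) := by
    refine tendsto_measure_iInter_atTop (fun n => (slab_closed q a _).measurableSet.nullMeasurableSet)
      ?_ ⟨0, (slab_lt_top q a _).ne⟩
    intro n k hnk
    refine slab_mono q a ?_
    have : (n : ℝ) ≤ k := by exact_mod_cast hnk
    exact one_div_le_one_div_of_le (by positivity) (by linarith)
  have h3 : (⋂ n : ℕ, slab q a (1 / ((n : ℝ) + 1))) = slab q a 0 := by
    ext y
    simp only [mem_iInter, slab, mem_ofPred_eq]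
    constructor
    · intro h i
      refine le_of_tendsto_of_tendsto (b := atTop) tendsto_const_nhds
        tendsto_one_div_add_atTop_nhds_zero_nat (Eventually.of_forall fun n => h n i)
    · intro h n i
      exact (h i).trans (by positivity)
  rw [h3, h0] at h2
  exact le_antisymm (ge_of_tendsto' h2 fun n => h1 _ (by positivity)) zero_le

/-- Positive slabs at a negative level. -/
theorem exists_neg {d : ℕ} {ι : Type} [Fintype ι] (q : ι → E d) (ρ : ι → ℝ)
    (hρ : ∀ i, 0 < ρ i) (h0 : volume (slab q (fun i => ρ i ^ 2) 0) ≠ 0) :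
    ∃ t : ℝ, t < 0 ∧ volume (slab q (fun i => ρ i ^ 2) t) ≠ 0 := by
  by_contra hcon
  push Not at hcon
  apply h0
  have h1 : slab q (fun i => ρ i ^ 2) 0 ⊆
      (⋃ n : ℕ, slab q (fun i => ρ i ^ 2) (-(1 / ((n : ℝ) + 1)))) ∪ ⋃ i, sphere (q i) (ρ i) := by
    intro y hy
    by_cases hs : ∃ i, ‖y - q i‖ ^ 2 - ρ i ^ 2 = 0
    · obtain ⟨i, hi⟩ := hs
      right
      rw [mem_iUnion]
      refine ⟨i, ?_⟩
      rw [mem_sphere, dist_eq_norm]
      have h2 : ‖y - q i‖ ^ 2 = ρ i ^ 2 := by linarith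
      exact (pow_left_inj₀ (norm_nonneg _) (hρ i).le two_ne_zero).1 h2
    · left
      push Not at hs
      have h2 : ∀ i, ‖y - q i‖ ^ 2 - ρ i ^ 2 < 0 := fun i => lt_of_le_of_ne (hy i) (hs i)
      obtain ⟨ε, hε, h3⟩ : ∃ ε : ℝ, 0 < ε ∧ ∀ i, ‖y - q i‖ ^ 2 - ρ i ^ 2 ≤ -ε := by
        by_cases hne : Nonempty ι
        · obtain ⟨i₀, -, hmax⟩ := Finset.exists_max_image (Finset.univ : Finset ι)
            (fun i => ‖y - q i‖ ^ 2 - ρ i ^ 2) Finset.univ_nonempty
          refine ⟨-(‖y - q i₀‖ ^ 2 - ρ i₀ ^ 2), by linarith [h2 i₀], fun i => ?_⟩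
          rw [neg_neg]
          exact hmax i (Finset.mem_univ i)
        · exact ⟨1, one_pos, fun i => absurd ⟨i⟩ hne⟩
      obtain ⟨n, hn⟩ := exists_nat_one_div_lt hε
      rw [mem_iUnion]
      refine ⟨n, fun i => ?_⟩
      have := h3 i
      show ‖y - q i‖ ^ 2 - ρ i ^ 2 ≤ -(1 / ((n : ℝ) + 1))
      linarith
  refine measure_mono_null h1 (measure_union_null (measure_iUnion_null fun n => ?_)
    (measure_iUnion_null fun i => ?_))
  · refine hcon _ ?_
    have : (0 : ℝ) < 1 / ((n : ℝ) + 1) := by positivity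
    linarith
  · exact Measure.addHaar_sphere_of_ne_zero volume (q i) (hρ i).ne'

theorem exists_pos {d : ℕ} (hd : 1 ≤ d) {ι : Type} [Fintype ι] [Nonempty ι] (q : ι → E d)
    (a : ι → ℝ) : ∃ t : ℝ, 0 < t ∧ volume (slab q a 0) < volume (slab q a t) := by
  obtain ⟨i₀⟩ := ‹Nonempty ι›
  set R : ℝ := √(0 + a i₀) with hR
  have hR0 : 0 ≤ R := Real.sqrt_nonneg _
  have h1 : volume (slab q a 0) ≤ volume (closedBall (q i₀) R) :=
    measure_mono (slab_subset q a 0 i₀)
  have h2 : volume (closedBall (q i₀) R) < volume (closedBall (q i₀) (R + 1)) := by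
    have : Nonempty (Fin d) := ⟨⟨0, by omega⟩⟩
    rw [Measure.addHaar_closedBall volume (q i₀) hR0,
      Measure.addHaar_closedBall volume (q i₀) (by linarith : (0 : ℝ) ≤ R + 1)]
    have h3 : volume (ball (0 : E d) 1) ≠ 0 := (measure_ball_pos volume _ one_pos).ne'
    have h4 : volume (ball (0 : E d) 1) ≠ ∞ := measure_ball_lt_top.ne
    rw [ENNReal.mul_lt_mul_iff_left h3 h4, ENNReal.ofReal_lt_ofReal_iff (by positivity)]
    rw [finrank_euclideanSpace_fin]
    exact pow_lt_pow_left₀ (by linarith) hR0 (by omega)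
  obtain ⟨T, hT⟩ : ∃ T : ℝ, ∀ i, (R + 1 + ‖q i₀ - q i‖) ^ 2 - a i ≤ T := by
    obtain ⟨j, -, hj⟩ := Finset.exists_max_image (Finset.univ : Finset ι)
      (fun i => (R + 1 + ‖q i₀ - q i‖) ^ 2 - a i) ⟨i₀, Finset.mem_univ _⟩
    exact ⟨_, fun i => hj i (Finset.mem_univ i)⟩
  refine ⟨max T 1, lt_of_lt_of_le one_pos (le_max_right _ _), (h1.trans_lt h2).trans_le ?_⟩
  refine measure_mono fun y hy i => ?_
  rw [mem_closedBall, dist_eq_norm] at hy
  have h3 : ‖y - q i‖ ≤ R + 1 + ‖q i₀ - q i‖ := by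
    calc ‖y - q i‖ = ‖(y - q i₀) + (q i₀ - q i)‖ := by rw [sub_add_sub_cancel]
      _ ≤ ‖y - q i₀‖ + ‖q i₀ - q i‖ := norm_add_le _ _
      _ ≤ _ := by linarith
  have h4 : ‖y - q i‖ ^ 2 ≤ (R + 1 + ‖q i₀ - q i‖) ^ 2 := pow_le_pow_left₀ (norm_nonneg _) h3 2
  have h5 := hT i
  exact (by linarith : ‖y - q i‖ ^ 2 - a i ≤ T).trans (le_max_left _ _)

theorem gauss {m : ℕ} {l : ℝ} (hl : 0 < l) :
    ∫⁻ z : E m, ENNReal.ofReal (exp (-l * ‖z‖ ^ 2)) = ENNReal.ofReal ((π / l) ^ ((m : ℝ) / 2)) := by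
  have h1 := GaussianFourier.integral_rexp_neg_mul_sq_norm (V := E m) hl
  rw [finrank_euclideanSpace_fin] at h1
  have hi : Integrable (fun z : E m => exp (-l * ‖z‖ ^ 2)) := by
    by_contra hcon
    rw [integral_undef hcon] at h1
    have : 0 < (π / l) ^ ((m : ℝ) / 2) := by positivity
    rw [← h1] at this
    exact lt_irrefl _ this
  rw [← ofReal_integral_eq_lintegral_ofReal hi (Eventually.of_forall fun z => (exp_pos _).le), h1]

/-- The final computation. -/
theorem numeric {m : ℕ} (hm : 1 ≤ m) {l V0 V' : ℝ} (hl : 0 < l)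
    (h : V' * (√((m : ℝ) / (2 * l)) ^ m * (√π ^ m / Gamma ((m : ℝ) / 2 + 1))) ≤
      V0 * exp (l * ((m : ℝ) / (2 * l))) * (π / l) ^ ((m : ℝ) / 2)) :
    V' ≤ Gamma ((m : ℝ) / 2 + 1) * (2 * exp 1 / m) ^ ((m : ℝ) / 2) * V0 := by
  have hm0 : (0 : ℝ) < m := by exact_mod_cast hm
  have hG : 0 < Gamma ((m : ℝ) / 2 + 1) := Real.Gamma_pos_of_pos (by positivity)
  have hsq : ∀ x : ℝ, 0 ≤ x → √x ^ m = x ^ ((m : ℝ) / 2) := by
    intro x hx
    rw [Real.sqrt_eq_rpow, ← Real.rpow_natCast, ← Real.rpow_mul hx]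
    congr 1
    ring
  rw [hsq _ (by positivity), hsq _ Real.pi_pos.le] at h
  have e1 : l * ((m : ℝ) / (2 * l)) = (m : ℝ) / 2 := by field_simp
  rw [e1] at h
  set c : ℝ := (m : ℝ) / 2 with hc
  have hA : 0 < ((m : ℝ) / (2 * l)) ^ c := by positivity
  have hB : 0 < π ^ c := by positivity
  have h2 : V' * (((m : ℝ) / (2 * l)) ^ c * π ^ c) ≤
      V0 * exp c * (π / l) ^ c * Gamma (c + 1) := by
    have h3 : V' * (((m : ℝ) / (2 * l)) ^ c * (π ^ c / Gamma (c + 1))) =
        V' * (((m : ℝ) / (2 * l)) ^ c * π ^ c) / Gamma (c + 1) := by ring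
    rw [h3, div_le_iff₀ hG] at h
    exact h
  have h4 : exp c * (π / l) ^ c = (2 * exp 1 / m) ^ c * (((m : ℝ) / (2 * l)) ^ c * π ^ c) := by
    have h5 : exp c = exp 1 ^ c := by
      rw [← Real.exp_mul, one_mul]
    rw [h5, ← Real.mul_rpow (exp_pos _).le (by positivity), ← Real.mul_rpow (by positivity)
      Real.pi_pos.le, ← Real.mul_rpow (by positivity) (by positivity)]
    congr 1
    field_simp
  have h6 : V0 * exp c * (π / l) ^ c * Gamma (c + 1) =
      (Gamma (c + 1) * (2 * exp 1 / m) ^ c * V0) * (((m : ℝ) / (2 * l)) ^ c * π ^ c) := by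
    rw [mul_assoc V0, h4]
    ring
  rw [h6] at h2
  exact le_of_mul_le_mul_right h2 (by positivity)

theorem pf_int (hKPI : T_KPI) (hRNK : T_RNK) (hISL : T_ISL) (hLCI : T_LCI) (hTAN : T_TAN) :
    T_INT := by
  intro d hd ι _ _ p q ρ hc hρ
  rw [vI_eq p ρ hρ, vI_eq q ρ hρ]
  set a : ι → ℝ := fun i => ρ i ^ 2 with ha
  obtain ⟨m, rfl⟩ : ∃ m, d = m + 2 := ⟨d - 2, by omega⟩
  have hm : 1 ≤ m := by omega
  have hm0 : (0 : ℝ) < m := by exact_mod_cast hm
  have hineq : ∀ τ : ℝ, 0 < τ → ∫⁻ z : E m, volume (slab p a (τ - ‖z‖ ^ 2)) ≤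
      ∫⁻ z : E m, volume (slab q a (τ - ‖z‖ ^ 2)) := by
    intro τ hτ
    exact slices hKPI hRNK hISL hd p q hc a τ (fun i => by
      have : 0 ≤ a i := sq_nonneg _
      linarith)
  by_cases h0 : volume (slab q a 0) = 0
  · rw [null_case p q a hineq h0]
    exact zero_le
  -- the tangent line
  set V : ℝ → ℝ := fun t => (volume (slab q a t)).toReal with hV
  have hVof : ∀ t, ENNReal.ofReal (V t) = volume (slab q a t) := fun t =>
    ENNReal.ofReal_toReal (slab_lt_top q a t).ne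
  have hVpos : ∀ t, volume (slab q a t) ≠ 0 → 0 < V t := fun t ht =>
    ENNReal.toReal_pos ht (slab_lt_top q a t).ne
  obtain ⟨l, hl, hVl⟩ := hTAN V
    (fun s t hst => ENNReal.toReal_mono (slab_lt_top q a t).ne (measure_mono (slab_mono q a hst)))
    (fun t => ENNReal.toReal_nonneg) (hVpos 0 h0)
    (by
      intro s t θ h1 h2
      have h3 := hLCI (m + 2) (by omega) ι q a s t θ h1 h2
      have h4 := ENNReal.toReal_mono (slab_lt_top q a _).ne h3
      rw [ENNReal.toReal_mul, ← ENNReal.toReal_rpow, ← ENNReal.toReal_rpow] at h4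
      exact h4)
    (by
      obtain ⟨t, ht, ht'⟩ := exists_neg q ρ hρ h0
      exact ⟨t, ht, hVpos t ht'⟩)
    (by
      obtain ⟨t, ht, ht'⟩ := exists_pos (by omega : 1 ≤ m + 2) q a
      exact ⟨t, ht, (ENNReal.toReal_lt_toReal (slab_lt_top q a 0).ne (slab_lt_top q a t).ne).2 ht'⟩)
  set τ : ℝ := (m : ℝ) / (2 * l) with hτ
  have hτ0 : 0 < τ := by positivity
  have hup : ∫⁻ z : E m, volume (slab q a (τ - ‖z‖ ^ 2)) ≤
      ENNReal.ofReal (V 0 * exp (l * τ) * (π / l) ^ ((m : ℝ) / 2)) := by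
    calc ∫⁻ z : E m, volume (slab q a (τ - ‖z‖ ^ 2))
        ≤ ∫⁻ z : E m, ENNReal.ofReal (V 0 * exp (l * τ)) * ENNReal.ofReal (exp (-l * ‖z‖ ^ 2)) := by
          refine lintegral_mono fun z => ?_
          rw [← hVof, ← ENNReal.ofReal_mul (by
            have : 0 ≤ V 0 := ENNReal.toReal_nonneg
            positivity)]
          refine ENNReal.ofReal_le_ofReal ((hVl _).trans (le_of_eq ?_))
          rw [mul_assoc, ← Real.exp_add]
          congr 2
          ring
      _ = _ := by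
          rw [lintegral_const_mul _ (by fun_prop), gauss hl, ← ENNReal.ofReal_mul (by
            have : 0 ≤ V 0 := ENNReal.toReal_nonneg
            positivity)]
  have hmain := ((lower p a τ hτ0.le (m := m)).trans (hineq τ hτ0)).trans hup
  have : Nonempty (Fin m) := ⟨⟨0, by omega⟩⟩
  rw [EuclideanSpace.volume_closedBall, Fintype.card_fin] at hmain
  set V' : ℝ := (volume (slab p a 0)).toReal with hV'
  have hV'of : ENNReal.ofReal V' = volume (slab p a 0) :=
    ENNReal.ofReal_toReal (slab_lt_top p a 0).ne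
  have hV0 : 0 ≤ V 0 := ENNReal.toReal_nonneg
  have hG : 0 < Gamma ((m : ℝ) / 2 + 1) := Real.Gamma_pos_of_pos (by positivity)
  rw [← hV'of, ← ENNReal.ofReal_pow (Real.sqrt_nonneg _), ← ENNReal.ofReal_mul (by positivity),
    ← ENNReal.ofReal_mul ENNReal.toReal_nonneg, ENNReal.ofReal_le_ofReal_iff (by positivity)] at hmain
  have hfin := numeric hm hl hmain
  have e1 : ((m + 2 : ℕ) : ℝ) / 2 = (m : ℝ) / 2 + 1 := by push_cast; ring
  have e2 : ((m + 2 : ℕ) : ℝ) - 2 = m := by push_cast; ring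
  rw [e1, e2, ← hV'of, ← hVof 0, ← ENNReal.ofReal_mul (by positivity)]
  exact ENNReal.ofReal_le_ofReal hfin

end Pool.Agent.H22.PK.INT
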