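import Pool.Agent.H97.PK.Targets

/-!
# ONE: the one-dimensional argument
-/

open MeasureTheory Set Metric Real
open scoped ENNReal

set_option autoImplicit false

namespace Pool.Agent.H22.PK.ONE

open Pool.Agent.H97.PK

theorem split2 {G a b : ℝ≥0∞} (h : G ≤ a + b) : G ≤ 2 * a ∨ G ≤ 2 * b := by
  rcases le_total a b with hab | hab
  · right
    calc G ≤ a + b := h
      _ ≤ b + b := add_le_add hab le_rfl
      _ = 2 * b := (two_mul b).symm
  · left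
    calc G ≤ a + b := h
      _ ≤ a + a := add_le_add le_rfl hab
      _ = 2 * a := (two_mul a).symm

theorem lint_ftc (f F : ℝ → ℝ) (a b : ℝ) (hab : a ≤ b) (hf : Continuous f) (h0 : ∀ s, 0 ≤ f s)
    (hF : ∀ s, HasDerivAt F (f s) s) :
    ∫⁻ s in Ioc a b, ENNReal.ofReal (f s) = ENNReal.ofReal (F b - F a) := by
  have hi : IntegrableOn f (Ioc a b) := by
    have := hf.intervalIntegrable (μ := volume) a b
    rwa [intervalIntegrable_iff_integrableOn_Ioc_of_le hab] at this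
  rw [← ofReal_integral_eq_lintegral_ofReal hi (Filter.Eventually.of_forall h0),
    ← intervalIntegral.integral_of_le hab,
    intervalIntegral.integral_eq_sub_of_hasDerivAt (fun x _ => hF x) (hf.intervalIntegrable _ _)]

theorem int1 (Γ : ℝ) (h : 0 ≤ Γ) :
    ∫⁻ s in Ioc (0 : ℝ) 1, ENNReal.ofReal (Γ * exp (Γ * (1 - s))) = ENNReal.ofReal (exp Γ - 1) := by
  rw [lint_ftc (fun s => Γ * exp (Γ * (1 - s))) (fun s => -exp (Γ * (1 - s))) 0 1 (by norm_num)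
    (by fun_prop) (fun s => by positivity) ?_]
  · congr 1
    simp only [sub_self, mul_zero, exp_zero, sub_zero, mul_one]
    ring
  · intro s
    have h1 : HasDerivAt (fun s : ℝ => Γ * (1 - s)) (Γ * (0 - 1)) s :=
      ((hasDerivAt_const s (1 : ℝ)).sub (hasDerivAt_id s)).const_mul Γ
    have h2 : HasDerivAt (fun s : ℝ => -exp (Γ * (1 - s)))
      (-(exp (Γ * (1 - s)) * (Γ * (0 - 1)))) s := h1.exp.neg
    exact h2.congr_deriv (by ring)

theorem int2 (Y : ℝ) (h : 0 ≤ Y) :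
    ∫⁻ s in Ioc (1 : ℝ) (1 + Y), ENNReal.ofReal (exp (1 - s)) = ENNReal.ofReal (1 - exp (-Y)) := by
  rw [lint_ftc (fun s => exp (1 - s)) (fun s => -exp (1 - s)) 1 (1 + Y) (by linarith)
    (by fun_prop) (fun s => by positivity) ?_]
  · congr 1
    have : 1 - (1 + Y) = -Y := by ring
    simp only [this, sub_self, exp_zero]
    ring
  · intro s
    have h1 : HasDerivAt (fun s : ℝ => 1 - s) (0 - 1) s :=
      (hasDerivAt_const s (1 : ℝ)).sub (hasDerivAt_id s)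
    have h2 : HasDerivAt (fun s : ℝ => -exp (1 - s)) (-(exp (1 - s) * (0 - 1))) s := h1.exp.neg
    exact h2.congr_deriv (by ring)

/-- Interpolation of two bounds. -/
theorem interp {G a b θ : ℝ} {p q : ℝ≥0∞} (hG : 0 < G) (ha : 0 < a) (hb : 0 < b) (h0 : 0 < θ)
    (h1 : θ < 1) (hx : ENNReal.ofReal G ≤ ENNReal.ofReal a * p)
    (hy : ENNReal.ofReal G ≤ ENNReal.ofReal b * q) :
    ENNReal.ofReal G ≤ ENNReal.ofReal (a ^ (1 - θ) * b ^ θ) * (p ^ (1 - θ) * q ^ θ) := by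
  have h1' : 0 ≤ 1 - θ := by linarith
  have e : ENNReal.ofReal G = ENNReal.ofReal G ^ (1 - θ) * ENNReal.ofReal G ^ θ := by
    rw [← ENNReal.rpow_add _ _ (by simpa using hG) ENNReal.ofReal_ne_top]
    simp
  calc ENNReal.ofReal G = ENNReal.ofReal G ^ (1 - θ) * ENNReal.ofReal G ^ θ := e
    _ ≤ (ENNReal.ofReal a * p) ^ (1 - θ) * (ENNReal.ofReal b * q) ^ θ :=
        mul_le_mul' (ENNReal.rpow_le_rpow hx h1') (ENNReal.rpow_le_rpow hy h0.le)
    _ = _ := by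
        rw [ENNReal.mul_rpow_of_nonneg _ _ h1', ENNReal.mul_rpow_of_nonneg _ _ h0.le,
          ENNReal.ofReal_rpow_of_pos ha, ENNReal.ofReal_rpow_of_pos hb,
          ENNReal.ofReal_mul (by positivity)]
        ring

/-- The numerical part of the last case. -/
theorem numeric {D Γ Γ' x y θ₁ θ : ℝ} (hD : 1 ≤ D) (hΓ1 : 1 ≤ Γ) (hΓD : Γ ≤ D) (hΓ'0 : Γ ≤ Γ')
    (hΓ' : Γ' ≤ Γ + 1) (_hΓ'D : Γ' ≤ D + 1) (hx : 0 < x) (hx1 : x ≤ 1) (hy : 0 < y)
    (hθ₁ : θ₁ * (x + y) = x) (h0 : 0 < θ) (hθ : θ < θ₁) (hθ' : θ₁ - θ ≤ θ₁ / (D + 1)) :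
    (3 * Γ' * exp (Γ' * x)) ^ (1 - θ) * (4 * Γ * exp (-(Γ - 1) * y)) ^ θ ≤ 81 * (D + 1) := by
  have hxy : 0 < x + y := by linarith
  have hθ₁1 : θ₁ ≤ 1 := by
    by_contra hcon
    push Not at hcon
    nlinarith
  have hθ₁0 : 0 < θ₁ := by linarith
  have h1θ : 0 ≤ 1 - θ := by linarith
  have hD0 : 0 < D + 1 := by linarith
  -- the exponent
  have hE : Γ' * x * (1 - θ) + -(Γ - 1) * y * θ ≤ 3 := by
    have e1 : (1 - θ₁) * x = θ₁ * y := by nlinarith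
    have e2 : θ₁ * y ≤ 1 := by nlinarith
    have e3 : 0 ≤ θ₁ * y := by positivity
    have e4 : Γ' * x * (1 - θ) + -(Γ - 1) * y * θ =
        θ₁ * y * (Γ' - Γ + 1) + (θ₁ - θ) * (Γ' * x + (Γ - 1) * y) := by
      have : Γ' * ((1 - θ₁) * x) = Γ' * (θ₁ * y) := by rw [e1]
      linear_combination this
    have e5 : θ₁ * y * (Γ' - Γ + 1) ≤ 2 := by nlinarith
    have e6 : (θ₁ - θ) * (Γ' * x + (Γ - 1) * y) ≤ 1 := by
      have f1 : Γ' * x + (Γ - 1) * y ≤ (D + 1) * (x + y) := by nlinarith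
      have f2 : 0 ≤ Γ' * x + (Γ - 1) * y := by
        have : 0 ≤ (Γ - 1) * y := mul_nonneg (by linarith) hy.le
        have : 0 ≤ Γ' * x := mul_nonneg (by linarith) hx.le
        linarith
      calc (θ₁ - θ) * (Γ' * x + (Γ - 1) * y) ≤ θ₁ / (D + 1) * ((D + 1) * (x + y)) :=
            mul_le_mul hθ' f1 f2 (by positivity)
        _ = θ₁ * (x + y) := by field_simp
        _ ≤ 1 := by rw [hθ₁]; exact hx1
    rw [e4]
    linarith
  have hΓ'p : 0 < 3 * Γ' := by linarith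
  have hΓp : 0 < 4 * Γ := by linarith
  rw [Real.mul_rpow hΓ'p.le (exp_pos _).le, Real.mul_rpow hΓp.le (exp_pos _).le, ← Real.exp_mul,
    ← Real.exp_mul]
  have h3 : (3 * Γ') ^ (1 - θ) ≤ (4 * (D + 1)) ^ (1 - θ) :=
    Real.rpow_le_rpow hΓ'p.le (by nlinarith) h1θ
  have h4 : (4 * Γ) ^ θ ≤ (4 * (D + 1)) ^ θ := Real.rpow_le_rpow hΓp.le (by nlinarith) h0.le
  have h5 : (4 * (D + 1)) ^ (1 - θ) * (4 * (D + 1)) ^ θ = 4 * (D + 1) := by
    rw [← Real.rpow_add (by positivity)]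
    simp
  have h6 : exp 3 ≤ 81 / 4 := by
    have h7 := Real.exp_one_lt_d9
    have h8 : exp 3 = exp 1 ^ 3 := by
      rw [← Real.exp_nat_mul]
      norm_num
    rw [h8]
    calc exp 1 ^ 3 ≤ 2.7182818286 ^ 3 := by
          have := exp_pos 1
          gcongr
      _ ≤ 81 / 4 := by norm_num
  calc (3 * Γ') ^ (1 - θ) * exp (Γ' * x * (1 - θ)) * ((4 * Γ) ^ θ * exp (-(Γ - 1) * y * θ))
      = ((3 * Γ') ^ (1 - θ) * (4 * Γ) ^ θ) * exp (Γ' * x * (1 - θ) + -(Γ - 1) * y * θ) := by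
        rw [Real.exp_add]
        ring
    _ ≤ ((4 * (D + 1)) ^ (1 - θ) * (4 * (D + 1)) ^ θ) * exp 3 := by
        refine mul_le_mul (mul_le_mul h3 h4 (by positivity) (by positivity)) (exp_le_exp.2 hE)
          (exp_pos _).le (by positivity)
    _ = 4 * (D + 1) * exp 3 := by rw [h5]
    _ ≤ 4 * (D + 1) * (81 / 4) := mul_le_mul_of_nonneg_left h6 (by positivity)
    _ = 81 * (D + 1) := by ring

/-- Choice of `j`. -/
theorem choose_j {D Y θ₁ : ℝ} {J : ℕ} (hD : 1 ≤ D) (hY : 0 < Y) (h0 : 0 < θ₁) (h1 : θ₁ < 1)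
    (hl : 1 / ((D + 1) * (1 + Y)) ≤ θ₁) (hJ : (D + 1) * log ((D + 1) * (1 + Y)) + 1 ≤ J) :
    ∃ j : ℕ, 1 ≤ j ∧ j ≤ J ∧ 0 < exp (-(j : ℝ) / (D + 1)) ∧ exp (-(j : ℝ) / (D + 1)) < θ₁ ∧
      θ₁ - exp (-(j : ℝ) / (D + 1)) ≤ θ₁ / (D + 1) := by
  have hD0 : 0 < D + 1 := by linarith
  have hlog : 0 < -log θ₁ := by
    have := Real.log_neg h0 h1
    linarith
  set t : ℝ := (D + 1) * (-log θ₁) with ht
  have ht0 : 0 < t := by positivity
  refine ⟨⌊t⌋₊ + 1, by omega, ?_, exp_pos _, ?_, ?_⟩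
  · have h2 : (⌊t⌋₊ : ℝ) ≤ t := Nat.floor_le ht0.le
    have h3 : -log θ₁ ≤ log ((D + 1) * (1 + Y)) := by
      have h4 : log (1 / ((D + 1) * (1 + Y))) ≤ log θ₁ := Real.log_le_log (by positivity) hl
      rw [one_div, Real.log_inv] at h4
      linarith
    have h5 : ((⌊t⌋₊ + 1 : ℕ) : ℝ) ≤ J := by
      push_cast
      nlinarith
    exact_mod_cast h5
  · have h2 : t < ⌊t⌋₊ + 1 := Nat.lt_floor_add_one t
    calc exp (-((⌊t⌋₊ + 1 : ℕ) : ℝ) / (D + 1)) < exp (log θ₁) := by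
          apply exp_lt_exp.2
          rw [div_lt_iff₀ hD0]
          push_cast
          nlinarith
      _ = θ₁ := Real.exp_log h0
  · have h2 : (⌊t⌋₊ : ℝ) ≤ t := Nat.floor_le ht0.le
    have h3 : θ₁ * exp (-(1 / (D + 1))) ≤ exp (-((⌊t⌋₊ + 1 : ℕ) : ℝ) / (D + 1)) := by
      conv_lhs => rw [← Real.exp_log h0]
      rw [← Real.exp_add]
      apply exp_le_exp.2
      rw [le_div_iff₀ hD0]
      push_cast
      have : (log θ₁ + -(1 / (D + 1))) * (D + 1) = -t - 1 := by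
        rw [ht]
        field_simp
        ring
      rw [this]
      linarith
    have h4 : 1 - 1 / (D + 1) ≤ exp (-(1 / (D + 1))) := by
      have := Real.add_one_le_exp (-(1 / (D + 1)))
      linarith
    have h5 : θ₁ * (1 - 1 / (D + 1)) ≤ exp (-((⌊t⌋₊ + 1 : ℕ) : ℝ) / (D + 1)) :=
      (mul_le_mul_of_nonneg_left h4 h0.le).trans h3
    have h6 : θ₁ * (1 - 1 / (D + 1)) = θ₁ - θ₁ / (D + 1) := by ring
    linarith

/-- From the near part of the integral. -/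
theorem near {Γ G : ℝ} {v : ℝ → ℝ≥0∞} (_hΓ : 0 < Γ) (hG : 0 < G)
    (h : ENNReal.ofReal G ≤ 2 * ∫⁻ s in Ioc (0 : ℝ) 1, ENNReal.ofReal (Γ * exp (Γ * (1 - s))) * v s) :
    ∃ x : ℝ, 0 ≤ x ∧ x < 1 ∧ ENNReal.ofReal G ≤ ENNReal.ofReal (3 * Γ * exp (Γ * x)) * v (1 - x) := by
  by_contra hcon
  push Not at hcon
  have h1 : ∀ s ∈ Ioc (0 : ℝ) 1, ENNReal.ofReal (Γ * exp (Γ * (1 - s))) * v s ≤
      ENNReal.ofReal (G / 3) := by
    intro s hs
    have h2 := hcon (1 - s) (by linarith [hs.2]) (by linarith [hs.1])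
    rw [sub_sub_cancel] at h2
    have h3 : ENNReal.ofReal (3 * Γ * exp (Γ * (1 - s))) =
        3 * ENNReal.ofReal (Γ * exp (Γ * (1 - s))) := by
      rw [mul_assoc, ENNReal.ofReal_mul (by norm_num)]
      norm_num
    rw [h3, mul_assoc] at h2
    have h4 : ENNReal.ofReal (G / 3) = ENNReal.ofReal G / 3 := by
      rw [ENNReal.ofReal_div_of_pos (by norm_num)]
      norm_num
    rw [h4, ENNReal.le_div_iff_mul_le (by simp) (by simp), mul_comm]
    exact h2.le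
  have h5 : ∫⁻ s in Ioc (0 : ℝ) 1, ENNReal.ofReal (Γ * exp (Γ * (1 - s))) * v s ≤
      ENNReal.ofReal (G / 3) := by
    calc _ ≤ ∫⁻ _s in Ioc (0 : ℝ) 1, ENNReal.ofReal (G / 3) :=
          setLIntegral_mono measurable_const h1
      _ = ENNReal.ofReal (G / 3) := by simp
  have h6 : ENNReal.ofReal G ≤ 2 * ENNReal.ofReal (G / 3) := h.trans (mul_le_mul' le_rfl h5)
  have h7 : 2 * ENNReal.ofReal (G / 3) = ENNReal.ofReal (2 * (G / 3)) := by
    rw [ENNReal.ofReal_mul (by norm_num)]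
    norm_num
  rw [h7, ENNReal.ofReal_le_ofReal_iff (by positivity)] at h6
  linarith

/-- From the far part of the integral. -/
theorem far {Γ G Y : ℝ} {v : ℝ → ℝ≥0∞} (hΓ : 1 ≤ Γ) (hG : 0 < G) (hY : 0 < Y)
    (h : ENNReal.ofReal G ≤
      4 * ∫⁻ s in Ioc (1 : ℝ) (1 + Y), ENNReal.ofReal (Γ * exp (Γ * (1 - s))) * v s) :
    ∃ y : ℝ, 0 < y ∧ y ≤ Y ∧
      ENNReal.ofReal G ≤ ENNReal.ofReal (4 * Γ * exp (-(Γ - 1) * y)) * v (1 + y) := by
  by_contra hcon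
  push Not at hcon
  have h1 : ∀ s ∈ Ioc (1 : ℝ) (1 + Y), ENNReal.ofReal (Γ * exp (Γ * (1 - s))) * v s ≤
      ENNReal.ofReal (G / 4) * ENNReal.ofReal (exp (1 - s)) := by
    intro s hs
    have h2 := hcon (s - 1) (by linarith [hs.1]) (by linarith [hs.2])
    rw [add_sub_cancel] at h2
    have h3 : ENNReal.ofReal (4 * Γ * exp (-(Γ - 1) * (s - 1))) =
        4 * ENNReal.ofReal (Γ * exp (-(Γ - 1) * (s - 1))) := by
      rw [mul_assoc, ENNReal.ofReal_mul (by norm_num)]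
      norm_num
    rw [h3, mul_assoc] at h2
    have h4 : ENNReal.ofReal (G / 4) = ENNReal.ofReal G / 4 := by
      rw [ENNReal.ofReal_div_of_pos (by norm_num)]
      norm_num
    have h5 : ENNReal.ofReal (Γ * exp (-(Γ - 1) * (s - 1))) * v s ≤ ENNReal.ofReal (G / 4) := by
      rw [h4, ENNReal.le_div_iff_mul_le (by simp) (by simp), mul_comm]
      exact h2.le
    have h6 : ENNReal.ofReal (Γ * exp (Γ * (1 - s))) =
        ENNReal.ofReal (Γ * exp (-(Γ - 1) * (s - 1))) * ENNReal.ofReal (exp (1 - s)) := by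
      rw [← ENNReal.ofReal_mul (by positivity), mul_assoc, ← Real.exp_add]
      congr 3
      ring
    rw [h6]
    calc ENNReal.ofReal (Γ * exp (-(Γ - 1) * (s - 1))) * ENNReal.ofReal (exp (1 - s)) * v s
        = ENNReal.ofReal (Γ * exp (-(Γ - 1) * (s - 1))) * v s * ENNReal.ofReal (exp (1 - s)) := by
          ring
      _ ≤ _ := mul_le_mul' h5 le_rfl
  have h5 : ∫⁻ s in Ioc (1 : ℝ) (1 + Y), ENNReal.ofReal (Γ * exp (Γ * (1 - s))) * v s ≤
      ENNReal.ofReal (G / 4) * ENNReal.ofReal (1 - exp (-Y)) := by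
    calc _ ≤ ∫⁻ s in Ioc (1 : ℝ) (1 + Y), ENNReal.ofReal (G / 4) * ENNReal.ofReal (exp (1 - s)) :=
          setLIntegral_mono (by fun_prop) h1
      _ = _ := by
          rw [lintegral_const_mul _ (by fun_prop), int2 Y hY.le]
  have h8 : 0 < exp (-Y) := exp_pos _
  have h9 : exp (-Y) ≤ 1 := Real.exp_le_one_iff.2 (by linarith)
  have h6 : ENNReal.ofReal G ≤ 4 * (ENNReal.ofReal (G / 4) * ENNReal.ofReal (1 - exp (-Y))) :=
    h.trans (mul_le_mul' le_rfl h5)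
  have h7 : 4 * (ENNReal.ofReal (G / 4) * ENNReal.ofReal (1 - exp (-Y))) =
      ENNReal.ofReal (4 * (G / 4 * (1 - exp (-Y)))) := by
    rw [ENNReal.ofReal_mul (by norm_num), ENNReal.ofReal_mul (by positivity)]
    norm_num
  rw [h7, ENNReal.ofReal_le_ofReal_iff (by
    have : 0 ≤ 1 - exp (-Y) := by linarith
    positivity)] at h6
  nlinarith

theorem pf_one : T_ONE := by
  intro D g G Y K J v hD hg hg1 hK hG hY hJ hmono hint
  have hD0 : 0 < D := by linarith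
  set Γ : ℕ → ℝ := fun k => g * (1 + 1 / D) ^ k with hΓdef
  have hΓpos : ∀ k, 0 < Γ k := fun k => by positivity
  have hΓs : ∀ k, Γ (k + 1) = Γ k * (1 + 1 / D) := fun k => by
    simp only [hΓdef, pow_succ]
    ring
  have hΓmono : Monotone Γ := by
    refine monotone_nat_of_le_succ fun k => ?_
    rw [hΓs]
    have h1 : (0 : ℝ) < 1 / D := by positivity
    nlinarith [hΓpos k]
  set W : ℕ → ℝ → ℝ≥0∞ := fun k s => ENNReal.ofReal (Γ k * exp (Γ k * (1 - s))) * v k s with hW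
  have hWm : ∀ k, Measurable (W k) := by
    intro k
    have := (hmono k).measurable
    simp only [hW]
    fun_prop
  have hLR : ∀ k, k ≤ K → ENNReal.ofReal G ≤ 2 * ∫⁻ s in Ioc (0 : ℝ) 1, W k s ∨
      ENNReal.ofReal G ≤ 2 * ∫⁻ s in Ioi (1 : ℝ), W k s := by
    intro k hk
    apply split2
    have h1 := hint k hk
    have h2 : ∫⁻ s in Ioi (0 : ℝ), W k s =
        (∫⁻ s in Ioc (0 : ℝ) 1, W k s) + ∫⁻ s in Ioi (1 : ℝ), W k s := by
      rw [← Ioc_union_Ioi_eq_Ioi (zero_le_one' ℝ), lintegral_union measurableSet_Ioi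
        (Ioc_disjoint_Ioi le_rfl)]
    rw [← h2]
    exact h1
  -- the indices
  have hex1 : ∃ k, D ≤ Γ k := ⟨K, hK⟩
  classical
  obtain ⟨k₁, hk₁, hk₁min⟩ : ∃ k₁, D ≤ Γ k₁ ∧ ∀ k < k₁, Γ k < D :=
    ⟨Nat.find hex1, Nat.find_spec hex1, fun k hk => not_le.1 (Nat.find_min hex1 hk)⟩
  have hk₁K : k₁ ≤ K := by
    by_contra hcon
    exact absurd (hk₁min K (by omega)) (not_lt.2 hK)
  have hΓk₁ : Γ k₁ ≤ D + 1 := by
    rcases Nat.eq_zero_or_pos k₁ with h0 | h0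
    · rw [h0]
      simp only [hΓdef, pow_zero, mul_one]
      linarith
    · obtain ⟨k, rfl⟩ : ∃ k, k₁ = k + 1 := ⟨k₁ - 1, by omega⟩
      rw [hΓs]
      have h1 := hk₁min k (by omega)
      calc Γ k * (1 + 1 / D) ≤ D * (1 + 1 / D) :=
            mul_le_mul_of_nonneg_right h1.le (by positivity)
        _ = D + 1 := by field_simp
  by_cases hR1 : ENNReal.ofReal G ≤ 2 * ∫⁻ s in Ioi (1 : ℝ), W k₁ s
  · exact Or.inr (Or.inl ⟨k₁, hk₁K, hk₁, hΓk₁, hR1⟩)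
  have hL1 : ENNReal.ofReal G ≤ 2 * ∫⁻ s in Ioc (0 : ℝ) 1, W k₁ s := (hLR k₁ hk₁K).resolve_right hR1
  have hex0 : ∃ k, 1 ≤ Γ k := ⟨k₁, hD.trans hk₁⟩
  obtain ⟨k₀, hk₀, hk₀min⟩ : ∃ k₀, 1 ≤ Γ k₀ ∧ ∀ k < k₀, Γ k < 1 :=
    ⟨Nat.find hex0, Nat.find_spec hex0, fun k hk => not_le.1 (Nat.find_min hex0 hk)⟩
  have hk₀₁ : k₀ ≤ k₁ := by
    by_contra hcon
    exact absurd (hk₀min k₁ (by omega)) (not_lt.2 (hD.trans hk₁))
  have hΓk₀ : Γ k₀ ≤ 2 := by
    rcases Nat.eq_zero_or_pos k₀ with h0 | h0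
    · rw [h0]
      simp only [hΓdef, pow_zero, mul_one]
      linarith
    · obtain ⟨k, rfl⟩ : ∃ k, k₀ = k + 1 := ⟨k₀ - 1, by omega⟩
      rw [hΓs]
      have h1 := hk₀min k (by omega)
      have h2 : 1 / D ≤ 1 := by
        rw [div_le_one hD0]
        exact hD
      have h3 : (0 : ℝ) < 1 / D := by positivity
      nlinarith [hΓpos k]
  have hnine : ∀ w : ℝ≥0∞, ∀ c : ℝ, c ≤ 18 → ENNReal.ofReal c * w ≤ ENNReal.ofReal (9 * (D + 1)) * w := by
    intro w c hc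
    refine mul_le_mul' (ENNReal.ofReal_le_ofReal ?_) le_rfl
    linarith
  by_cases hL0 : ENNReal.ofReal G ≤ 2 * ∫⁻ s in Ioc (0 : ℝ) 1, W k₀ s
  · left
    refine ⟨k₀, hk₀₁.trans hk₁K, ?_⟩
    have h1 : ∫⁻ s in Ioc (0 : ℝ) 1, W k₀ s ≤ ENNReal.ofReal (exp (Γ k₀) - 1) * v k₀ 1 := by
      calc ∫⁻ s in Ioc (0 : ℝ) 1, W k₀ s
          ≤ ∫⁻ s in Ioc (0 : ℝ) 1, ENNReal.ofReal (Γ k₀ * exp (Γ k₀ * (1 - s))) * v k₀ 1 := by
            refine setLIntegral_mono (by fun_prop) fun s hs => ?_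
            exact mul_le_mul' le_rfl (hmono k₀ hs.2)
        _ = _ := by
            rw [lintegral_mul_const _ (by fun_prop), int1 _ (hΓpos k₀).le]
    have h2 : ENNReal.ofReal G ≤ ENNReal.ofReal (2 * (exp (Γ k₀) - 1)) * v k₀ 1 := by
      calc ENNReal.ofReal G ≤ 2 * ∫⁻ s in Ioc (0 : ℝ) 1, W k₀ s := hL0
        _ ≤ 2 * (ENNReal.ofReal (exp (Γ k₀) - 1) * v k₀ 1) := mul_le_mul' le_rfl h1
        _ = _ := by
            rw [ENNReal.ofReal_mul (by norm_num), ← mul_assoc]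
            norm_num
    refine h2.trans (hnine _ _ ?_)
    have h3 : exp (Γ k₀) ≤ exp 2 := exp_le_exp.2 hΓk₀
    have h7 := Real.exp_one_lt_d9
    have h8 : exp 2 = exp 1 ^ 2 := by
      rw [← Real.exp_nat_mul]
      norm_num
    have h9 : exp 1 ^ 2 ≤ 2.7182818286 ^ 2 := by
      have := exp_pos 1
      gcongr
    rw [h8] at h3
    norm_num at h9
    linarith
  -- the change of sides
  obtain ⟨k, hkk₀, hkk₁, hnL, hL⟩ : ∃ k, k₀ ≤ k ∧ k < k₁ ∧
      ¬ (ENNReal.ofReal G ≤ 2 * ∫⁻ s in Ioc (0 : ℝ) 1, W k s) ∧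
      ENNReal.ofReal G ≤ 2 * ∫⁻ s in Ioc (0 : ℝ) 1, W (k + 1) s := by
    by_contra hcon
    push Not at hcon
    have hall : ∀ n, k₀ + n ≤ k₁ →
        ¬ (ENNReal.ofReal G ≤ 2 * ∫⁻ s in Ioc (0 : ℝ) 1, W (k₀ + n) s) := by
      intro n
      induction n with
      | zero => intro _; exact hL0
      | succ n ih =>
        intro hn
        have h1 := ih (by omega)
        exact not_le.2 (hcon (k₀ + n) (by omega) (by omega) (not_le.1 h1))
    have h1 := hall (k₁ - k₀) (by omega)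
    rw [Nat.add_sub_cancel' hk₀₁] at h1
    exact h1 hL1
  have hkK : k < K := by omega
  have hR : ENNReal.ofReal G ≤ 2 * ∫⁻ s in Ioi (1 : ℝ), W k s := (hLR k hkK.le).resolve_left hnL
  have hΓ1 : 1 ≤ Γ k := hk₀.trans (hΓmono hkk₀)
  have hΓD : Γ k < D := hk₁min k hkk₁
  have hΓ' : Γ (k + 1) ≤ Γ k + 1 := by
    rw [hΓs]
    have : Γ k * (1 / D) ≤ 1 := by
      rw [mul_one_div, div_le_one hD0]
      exact hΓD.le
    linarith
  have hΓ'0 : Γ k ≤ Γ (k + 1) := hΓmono (Nat.le_succ k)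
  have hΓ'D : Γ (k + 1) ≤ D + 1 := by linarith
  obtain ⟨x, hx0, hx1, hx⟩ := near (hΓpos (k + 1)) hG hL
  -- the far part
  have hsp : ∫⁻ s in Ioi (1 : ℝ), W k s =
      (∫⁻ s in Ioc (1 : ℝ) (1 + Y), W k s) + ∫⁻ s in Ioi (1 + Y), W k s := by
    rw [← Ioc_union_Ioi_eq_Ioi (show (1 : ℝ) ≤ 1 + Y by linarith), lintegral_union measurableSet_Ioi
      (Ioc_disjoint_Ioi le_rfl)]
  rw [hsp, mul_add] at hR
  rcases split2 hR with hR' | hR'
  swap
  · right; right; left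
    refine ⟨k, hkK.le, hΓ1, ?_⟩
    rw [← mul_assoc] at hR'
    norm_num at hR'
    exact hR'
  have hR'' : ENNReal.ofReal G ≤ 4 * ∫⁻ s in Ioc (1 : ℝ) (1 + Y), W k s := by
    rw [← mul_assoc] at hR'
    norm_num at hR'
    exact hR'
  obtain ⟨y, hy0, hyY, hy⟩ := far hΓ1 hG hY hR''
  by_cases hxs : x ≤ 1 / (D + 1)
  · left
    refine ⟨k + 1, hkK, ?_⟩
    have h1 : v (k + 1) (1 - x) ≤ v (k + 1) 1 := hmono (k + 1) (by linarith)
    have h2 : Γ (k + 1) * x ≤ 1 := by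
      calc Γ (k + 1) * x ≤ (D + 1) * (1 / (D + 1)) :=
            mul_le_mul hΓ'D hxs hx0 (by linarith)
        _ = 1 := by field_simp
    have h3 : 3 * Γ (k + 1) * exp (Γ (k + 1) * x) ≤ 9 * (D + 1) := by
      have h4 : exp (Γ (k + 1) * x) ≤ exp 1 := exp_le_exp.2 h2
      have h5 := Real.exp_one_lt_d9
      have h6 : exp (Γ (k + 1) * x) ≤ 3 := by linarith
      calc 3 * Γ (k + 1) * exp (Γ (k + 1) * x) ≤ 3 * (D + 1) * 3 :=
            mul_le_mul (by linarith) h6 (exp_pos _).le (by linarith)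
        _ = 9 * (D + 1) := by ring
    exact hx.trans (mul_le_mul' (ENNReal.ofReal_le_ofReal h3) h1)
  · push Not at hxs
    right; right; right
    have hD1 : 0 < D + 1 := by linarith
    have hx0' : 0 < x := lt_trans (by positivity) hxs
    have hxy : 0 < x + y := by linarith
    have hθe : x / (x + y) * (x + y) = x := by field_simp
    have hθ0 : 0 < x / (x + y) := by positivity
    have hθ1 : x / (x + y) < 1 := by
      rw [div_lt_one hxy]
      linarith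
    have hθl : 1 / ((D + 1) * (1 + Y)) ≤ x / (x + y) := by
      have h1 : 1 / ((D + 1) * (1 + Y)) = 1 / (D + 1) / (1 + Y) := by
        field_simp
      rw [h1]
      exact div_le_div₀ hx0 hxs.le hxy (by linarith)
    obtain ⟨j, hj1, hjJ, hj0, hjlt, hjd⟩ := choose_j hD hY hθ0 hθ1 hθl hJ
    refine ⟨k, hkK, j, hj1, hjJ, x, y, hx0, hx1.le, hy0.le, ?_, ?_⟩
    · have : (1 - exp (-(j : ℝ) / (D + 1))) * (1 - x) + exp (-(j : ℝ) / (D + 1)) * (1 + y) =
          1 - x + exp (-(j : ℝ) / (D + 1)) * (x + y) := by ring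
      rw [this]
      have := mul_le_mul_of_nonneg_right hjlt.le hxy.le
      linarith
    · have h1 := interp hG (by have := hΓpos (k + 1); positivity)
        (by have := hΓpos k; positivity) hj0 (lt_trans hjlt hθ1) hx hy
      refine h1.trans (mul_le_mul' (ENNReal.ofReal_le_ofReal ?_) le_rfl)
      exact numeric hD hΓ1 hΓD.le hΓ'0 hΓ' hΓ'D hx0' hx1.le hy0 hθe hj0 hjlt hjd

end Pool.Agent.H22.PK.ONE
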